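import Pool.Agent.X90.DK.LinH
import Pool.Agent.X90.DC.Gen2
import Pool.Agent.X90.DC.Conv
import Pool.Agent.X90.DD.Small

/-!
# Linear relations in a domain with a period map: splitting and lifting
-/

set_option autoImplicit false

namespace Pool.Agent.N758.MT

open Finset
open Pool.Agent.Y760.ZG (mz)
open Pool.Agent.Y760.ZF (sti)
open Pool.Agent.X90.DB (Ad ix ex ex_nil ex_ne)
open Pool.Agent.X90.DC (Lr psti fp fpx Ge Gd)
open Pool.Agent.X90.DK (Mot)

/-- the multiple zeta values themselves -/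
@[reducible] noncomputable def RM : Mot where
  H := ℝ
  Z := mz
  nil := by rw [mz]
  mul := Pool.Agent.X90.DC.mz_stuffle
  per := Complex.ofRealHom
  per_Z _ _ := rfl

/-- a property of almost all tuples -/
def AA (k : ℕ) (P : ℝ → (Fin k → ℕ) → Prop) : Prop :=
  ∀ κ : ℕ, ∃ K : ℕ, ∀ C : ℝ, ∃ N0 : ℕ, ∀ N : ℕ, N0 ≤ N →
    {s : Fin k → ℕ | (∀ j, N ≤ s j ∧ s j ≤ κ * N) ∧ ¬ P (C ^ N) s}.ncard ≤ K * N ^ (k - 1)

lemma box_finite {k : ℕ} (N κ : ℕ) (Q : (Fin k → ℕ) → Prop) :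
    {s : Fin k → ℕ | (∀ j, N ≤ s j ∧ s j ≤ κ * N) ∧ Q s}.Finite := by
  refine (Set.Finite.pi' (t := fun _ : Fin k => Set.Icc N (κ * N)) fun _ => Set.finite_Icc _ _).subset ?_
  intro s hs j
  exact ⟨(hs.1 j).1, (hs.1 j).2⟩

lemma AA.mono {k : ℕ} {P Q : ℝ → (Fin k → ℕ) → Prop} (h : AA k P)
    (hPQ : ∀ B s, (∀ j, 2 ≤ s j) → P B s → Q B s) : AA k Q := by
  intro κ
  obtain ⟨K, hK⟩ := h κ
  refine ⟨K, fun C => ?_⟩
  obtain ⟨N0, hN0⟩ := hK C
  refine ⟨N0 + 2, fun N hN => (Set.ncard_le_ncard ?_ (box_finite _ _ _)).trans (hN0 N (by omega))⟩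
  rintro s ⟨hs, hs'⟩
  exact ⟨hs, fun hP => hs' (hPQ _ s (fun j => le_trans (by omega) (hs j).1) hP)⟩

/-- one variable: there are good arguments -/
lemma AA.exists_one {P : ℝ → (Fin 1 → ℕ) → Prop} (h : AA 1 P) (hmono : ∀ B B' s, B ≤ B' → P B' s → P B s)
    (B : ℝ) (n0 : ℕ) : ∃ s : Fin 1 → ℕ, n0 ≤ s 0 ∧ P B s := by
  obtain ⟨K, hK⟩ := h 2
  obtain ⟨N0, hN0⟩ := hK (1 + |B|)
  by_contra hcon
  push Not at hcon
  set N := N0 + K + n0 + 1 with hN
  have h1 := hN0 N (by omega)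
  have hB : B ≤ (1 + |B|) ^ N := by
    refine (le_abs_self B).trans ((by linarith [abs_nonneg B] : |B| ≤ 1 + |B|).trans ?_)
    exact le_self_pow₀ (by linarith [abs_nonneg B]) (by omega)
  have h2 : (fun (a : ℕ) (_ : Fin 1) => a) '' (Set.Icc N (2 * N)) ⊆
      {s : Fin 1 → ℕ | (∀ j, N ≤ s j ∧ s j ≤ 2 * N) ∧ ¬ P ((1 + |B|) ^ N) s} := by
    rintro _ ⟨a, ha, rfl⟩
    refine ⟨fun _ => ha, fun hP => ?_⟩
    refine hcon (fun _ => a) (le_trans (by omega) ha.1) (hmono _ _ _ hB hP)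
  have h3 := Set.ncard_le_ncard h2 (box_finite _ _ _)
  rw [Set.ncard_image_of_injective _ (fun a b hab => congrFun hab 0)] at h3
  have h4 : (Set.Icc N (2 * N)).ncard = N + 1 := by
    rw [← Finset.coe_Icc, Set.ncard_coe_finset, Nat.card_Icc]
    omega
  rw [h4] at h3
  have h5 : K * N ^ (1 - 1) = K := by simp
  omega

/-- the relation `c` splits into relations between fronts -/
def Spl {k r : ℕ} (w : Fin r → List (Lr k)) (s : Fin k → ℕ) (c : Fin r → ℤ) : Prop :=
  ∃ (U : Finset (List ℕ)) (d : List ℕ → (List ℕ →₀ ℤ)),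
    (∀ u ∈ U, (∀ q ∈ (d u).support, ∃ i, q <+: fpx (w i) ∧ q.sum + u.sum = (ix s (w i)).sum) ∧
      (d u).sum (fun q a => (a : ℝ) * mz q) = 0) ∧
    ∀ (A : Type) [CommRing A] (Z : List ℕ → A), Z [] = 1 →
      (∀ u v, Ad u → Ad v → Z u * Z v = ((sti u v).map Z).sum) →
      ∑ i, (c i : A) * Z (ix s (w i)) = ∑ u ∈ U, (d u).sum (fun q a => (a : A) * Z q) * Z u

lemma ex_eq {A : Type} [CommRing A] {Z : List ℕ → A} (h : Z [] = 1) (u : List ℕ) : ex Z u = Z u := by
  by_cases hu : u = []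
  · rw [hu, ex_nil, h]
  · rw [ex_ne _ hu]

theorem split {k r : ℕ} (w : Fin r → List (Lr k)) (hw : ∀ i, Ge (w i)) :
    AA k fun B s => ∀ c : Fin r → ℤ, (∀ i, |(c i : ℝ)| ≤ B) →
      ∑ i, (c i : ℝ) * mz (ix s (w i)) = 0 → Spl w s c := by
  classical
  intro κ
  obtain ⟨m, idx, cc, p, v, hp, hexp, hK⟩ := Pool.Agent.X90.DK.linH k r w hw κ
  obtain ⟨K, hK⟩ := hK RM
  refine ⟨K, fun C => ?_⟩
  obtain ⟨N0, hN0⟩ := hK C
  refine ⟨N0 + 2, fun N hN => ?_⟩
  rw [Set.ncard_eq_toFinset_card _ (box_finite _ _ _)]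
  refine hN0 N (by omega) _ fun s hs => ?_
  rw [Set.Finite.mem_toFinset] at hs
  obtain ⟨hs1, hs2⟩ := hs
  refine ⟨hs1, ?_⟩
  have hs3 : ∀ j, 2 ≤ s j := fun j => le_trans (by omega) (hs1 j).1
  push Not at hs2
  obtain ⟨c, hc, hrel, hns⟩ := hs2
  refine ⟨c, hc, hrel, ?_⟩
  by_contra hcon
  push Not at hcon
  apply hns
  set a : Fin m → ℤ := fun j => c (idx j) * cc j with ha
  set d : List ℕ → (List ℕ →₀ ℤ) := fun u => ∑ j with ix s (v j) = u, Finsupp.single (p j) (a j) with hd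
  have hsum : ∀ (A : Type) [CommRing A] (Z : List ℕ → A) (u : List ℕ),
      (d u).sum (fun q b => (b : A) * Z q) = ∑ j with ix s (v j) = u, (a j : A) * Z (p j) := by
    intro A _ Z u
    simp only [hd]
    rw [← Finsupp.sum_finsetSum_index (fun q => by simp) (fun q b b' => by push_cast; ring)]
    exact sum_congr rfl fun j _ => Finsupp.sum_single_index (by simp)
  refine ⟨univ.image fun j => ix s (v j), d, fun u _ => ⟨fun q hq => ?_, ?_⟩, fun A _ Z h1 hZ => ?_⟩
  · have h1 : ∃ j, ix s (v j) = u ∧ p j = q := by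
      by_contra h
      push Not at h
      rw [Finsupp.mem_support_iff] at hq
      apply hq
      simp only [hd]
      rw [Finsupp.finsetSum_apply]
      refine sum_eq_zero fun j hj => ?_
      rw [mem_filter] at hj
      rw [Finsupp.single_apply, if_neg (h j hj.2)]
    obtain ⟨j, rfl, rfl⟩ := h1
    exact ⟨idx j, (hp j).2.1, (hp j).2.2.2 s⟩
  · rw [hsum]
    exact hcon u
  · have h2 := hexp A Z hZ s hs3 c
    simp only [ex_eq h1] at h2
    rw [h2]
    simp only [hsum]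
    rw [← sum_fiberwise_of_maps_to (s := univ) (t := univ.image fun j => ix s (v j))
      (g := fun j => ix s (v j)) (fun j _ => mem_image_of_mem _ (mem_univ j))]
    refine sum_congr rfl fun u _ => ?_
    rw [sum_mul]
    refine sum_congr rfl fun j hj => ?_
    rw [mem_filter] at hj
    rw [hj.2]
    ring

/-- relations of bounded height lift -/
def Lft (G : Mot) {k r : ℕ} (w : Fin r → List (Lr k)) (B : ℝ) (s : Fin k → ℕ) : Prop :=
  ∀ c : Fin r → ℤ, (∀ i, |(c i : ℝ)| ≤ B) → ∑ i, (c i : ℝ) * mz (ix s (w i)) = 0 →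
    ∑ i, (c i : G.H) * G.Z (ix s (w i)) = 0

lemma Lft.mono {G : Mot} {k r : ℕ} {w : Fin r → List (Lr k)} {B B' : ℝ} {s : Fin k → ℕ} (h : B ≤ B')
    (h' : Lft G w B' s) : Lft G w B s := fun c hc => h' c fun i => (hc i).trans h

lemma smul_int {G : Mot} (a : ℤ) (x : G.H) : (a : G.H) * x = (a : ℚ) • x := by
  rw [Algebra.smul_def, map_intCast]

lemma ad_prefix {p q : List ℕ} (h : q = [] ∨ Ad q) (hp : p <+: q) : p = [] ∨ Ad p := by
  obtain ⟨t, rfl⟩ := hp
  rcases h with h | h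
  · exact Or.inl (List.append_eq_nil_iff.1 h).1
  · exact Pool.Agent.X90.DC.ad_of_prefix h

lemma fpx_ad {k : ℕ} {w : List (Lr k)} (hw : Ge w) : fpx w = [] ∨ Ad (fpx w) := by
  obtain ⟨v, -, h3⟩ := Pool.Agent.X90.DC.exists_prefix2 w hw.2
  refine Pool.Agent.X90.DC.ge_prefix (v := v) ?_
  rw [← h3]
  exact hw

/-- **lifting**: if the relations between fronts lift, so do almost all relations -/
theorem lift {k r : ℕ} (G : Mot) (Q : Set (List ℕ)) (hcl : ∀ q ∈ Q, ∀ q', q' <+: q → q' ∈ Q)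
    (w : Fin r → List (Lr k)) (hw : ∀ i, Ge (w i) ∧ fpx (w i) ∈ Q)
    (hinj : ∀ x ∈ Submodule.span ℚ (G.Z '' Q), G.per x = 0 → x = 0) : AA k (Lft G w) := by
  refine (split w fun i => (hw i).1).mono fun B s _ h c hc hrel => ?_
  obtain ⟨U, d, h1, h2⟩ := h c hc hrel
  rw [h2 G.H G.Z G.nil G.mul]
  refine sum_eq_zero fun u hu => ?_
  obtain ⟨g1, g2⟩ := h1 u hu
  suffices h0 : (d u).sum (fun q a => (a : G.H) * G.Z q) = 0 by rw [h0, zero_mul]
  refine hinj _ ?_ ?_
  · rw [Finsupp.sum]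
    refine Submodule.sum_mem _ fun q hq => ?_
    obtain ⟨i, hi, -⟩ := g1 q hq
    rw [smul_int]
    exact Submodule.smul_mem _ _ (Submodule.subset_span ⟨q, hcl _ (hw i).2 q hi, rfl⟩)
  · rw [Finsupp.sum, map_sum]
    rw [Finsupp.sum] at g2
    have g3 := congrArg (fun x : ℝ => (x : ℂ)) g2
    simp only [Complex.ofReal_sum, Complex.ofReal_zero] at g3
    rw [← g3]
    refine sum_congr rfl fun q hq => ?_
    obtain ⟨i, hi, -⟩ := g1 q hq
    rw [map_mul, map_intCast, G.per_Z' q (ad_prefix (fpx_ad (hw i).1) hi)]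
    push_cast
    rfl

/-- **lifting of homogeneous relations** -/
theorem lift_hom {k r : ℕ} (G : Mot) (Q : Set (List ℕ)) (hcl : ∀ q ∈ Q, ∀ q', q' <+: q → q' ∈ Q)
    (w : Fin r → List (Lr k)) (hw : ∀ i, Ge (w i) ∧ fpx (w i) ∈ Q)
    (hh : ∀ i j (s : Fin k → ℕ), (ix s (w i)).sum = (ix s (w j)).sum)
    (hinj : ∀ n, ∀ x ∈ Submodule.span ℚ (G.Z '' {q ∈ Q | q.sum = n}), G.per x = 0 → x = 0) :
    AA k (Lft G w) := by
  refine (split w fun i => (hw i).1).mono fun B s _ h c hc hrel => ?_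
  obtain ⟨U, d, h1, h2⟩ := h c hc hrel
  rw [h2 G.H G.Z G.nil G.mul]
  refine sum_eq_zero fun u hu => ?_
  obtain ⟨g1, g2⟩ := h1 u hu
  by_cases hd : (d u).support = ∅
  · rw [Finsupp.sum, hd, sum_empty, zero_mul]
  obtain ⟨q0, hq0⟩ := Finset.nonempty_iff_ne_empty.2 hd
  obtain ⟨i0, -, hi0⟩ := g1 q0 hq0
  suffices h0 : (d u).sum (fun q a => (a : G.H) * G.Z q) = 0 by rw [h0, zero_mul]
  refine hinj q0.sum _ ?_ ?_
  · rw [Finsupp.sum]
    refine Submodule.sum_mem _ fun q hq => ?_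
    obtain ⟨i, hi, hi'⟩ := g1 q hq
    rw [smul_int]
    refine Submodule.smul_mem _ _ (Submodule.subset_span ⟨q, ⟨hcl _ (hw i).2 q hi, ?_⟩, rfl⟩)
    have := hh i i0 s
    omega
  · rw [Finsupp.sum, map_sum]
    rw [Finsupp.sum] at g2
    have g3 := congrArg (fun x : ℝ => (x : ℂ)) g2
    simp only [Complex.ofReal_sum, Complex.ofReal_zero] at g3
    rw [← g3]
    refine sum_congr rfl fun q hq => ?_
    obtain ⟨i, hi, -⟩ := g1 q hq
    rw [map_mul, map_intCast, G.per_Z' q (ad_prefix (fpx_ad (hw i).1) hi)]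
    push_cast
    rfl

/-! ### The converse -/

lemma psti_nil {k : ℕ} (q : List ℕ) : psti (fp q : List (Lr k)) [] = [fp q] := by
  cases q with
  | nil =>
    have : (fp [] : List (Lr k)) = [] := rfl
    rw [this, psti]
  | cons b q =>
    have : (fp (b :: q) : List (Lr k)) = (b, 0) :: fp q := rfl
    rw [this, psti]

lemma psti_one {k : ℕ} (l : Lr k) (hl : l.2 ≠ 0) (q : List ℕ) : ∀ x ∈ psti (fp q) [l],
    fpx x <+: q ∧ (∃ u ∈ x, u.2 ≠ 0) ∧
    (∀ s : Fin k → ℕ, (ix s x).sum = q.sum + (l.1 + ∑ j, l.2 j * s j)) ∧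
    (∀ u ∈ x, u.2 ≠ 0 ∨ u.1 ∈ q) ∧ (∀ u ∈ x.head?, u.2 ≠ 0 ∨ u.1 ∈ q.head?) := by
  have hfx : ∀ (u : Lr k) (x : List (Lr k)), u.2 ≠ 0 → fpx (u :: x) = [] := by
    intro u x hu
    rw [fpx, if_neg hu]
  have hfx' : ∀ (b : ℕ) (x : List (Lr k)), fpx ((b, 0) :: x) = b :: fpx x := by
    intro b x
    rw [fpx, if_pos rfl]
  have hfp : ∀ (q : List ℕ), ∀ u ∈ (fp q : List (Lr k)), u.1 ∈ q := by
    intro q u hu
    rw [fp, List.mem_map] at hu
    obtain ⟨b, hb, rfl⟩ := hu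
    exact hb
  induction q with
  | nil =>
    intro x hx
    have : (fp [] : List (Lr k)) = [] := rfl
    rw [this, psti, List.mem_singleton] at hx
    subst hx
    refine ⟨by rw [hfx _ _ hl], ⟨l, by simp, hl⟩, fun s => ?_, fun u hu => ?_, fun u hu => ?_⟩
    · simp [ix]
    · rw [List.mem_singleton] at hu
      exact Or.inl (hu ▸ hl)
    · simp only [List.head?_cons, Option.mem_some_iff] at hu
      exact Or.inl (hu ▸ hl)
  | cons b q ih =>
    intro x hx
    have e : (fp (b :: q) : List (Lr k)) = (b, 0) :: fp q := rfl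
    rw [e, psti, ← e, psti_nil, psti_nil, List.mem_append, List.mem_append, List.mem_map] at hx
    have hbl : ((b, 0) + l : Lr k).2 ≠ 0 := by
      simpa using hl
    rcases hx with (⟨x', hx', rfl⟩ | hx) | hx
    · obtain ⟨h1, ⟨u, hu, hu'⟩, h3, h4, h5⟩ := ih x' hx'
      refine ⟨?_, ⟨u, List.mem_cons_of_mem _ hu, hu'⟩, fun s => ?_, fun u hu => ?_, fun u hu => ?_⟩
      · rw [hfx']
        exact (List.prefix_cons_inj b).2 h1
      · have e2 : ix s ((b, 0) :: x') = b :: ix s x' := by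
          rw [Pool.Agent.X90.DC.ix_cons]
          simp
        rw [e2, List.sum_cons, h3 s, List.sum_cons]
        ring
      · rcases List.mem_cons.1 hu with rfl | hu
        · exact Or.inr List.mem_cons_self
        · rcases h4 u hu with h | h
          · exact Or.inl h
          · exact Or.inr (List.mem_cons_of_mem _ h)
      · simp only [List.head?_cons, Option.mem_some_iff] at hu
        subst hu
        right
        simp
    · simp only [List.map_cons, List.map_nil, List.mem_singleton] at hx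
      subst hx
      refine ⟨by rw [hfx _ _ hl]; exact List.nil_prefix, ⟨l, by simp, hl⟩, fun s => ?_, fun u hu => ?_,
        fun u hu => ?_⟩
      · rw [Pool.Agent.X90.DC.ix_cons, Pool.Agent.X90.DC.ix_fp, List.sum_cons, List.sum_cons]
        ring
      · rcases List.mem_cons.1 hu with rfl | hu
        · exact Or.inl hl
        · exact Or.inr (hfp _ u hu)
      · simp only [List.head?_cons, Option.mem_some_iff] at hu
        exact Or.inl (hu ▸ hl)
    · simp only [List.map_cons, List.map_nil, List.mem_singleton] at hx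
      subst hx
      refine ⟨by rw [hfx _ _ hbl]; exact List.nil_prefix, ⟨_, List.mem_cons_self, hbl⟩, fun s => ?_,
        fun u hu => ?_, fun u hu => ?_⟩
      · rw [Pool.Agent.X90.DC.ix_cons, Pool.Agent.X90.DC.ix_fp, List.sum_cons, List.sum_cons]
        simp only [Prod.fst_add, Prod.snd_add, Pi.add_apply, Pi.zero_apply, zero_add]
        ring
      · rcases List.mem_cons.1 hu with rfl | hu
        · exact Or.inl hbl
        · exact Or.inr (List.mem_cons_of_mem _ (hfp _ u hu))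
      · simp only [List.head?_cons, Option.mem_some_iff] at hu
        exact Or.inl (hu ▸ hbl)

/-- **the converse**: one good argument is enough -/
theorem inj_of_lift (G : Mot) (Q T : Set (List ℕ)) (hQ : ∀ q ∈ Q, q = [] ∨ Ad q) (hTQ : T ⊆ Q)
    (hcl : ∀ q ∈ Q, ∀ q', q' <+: q → q' ∈ Q)
    (h : ∀ (r : ℕ) (w : Fin r → List (Lr 1)), (∀ i, Ge (w i) ∧ fpx (w i) ∈ Q ∧ (∃ u ∈ w i, u.2 ≠ 0) ∧
      ∃ q ∈ T, ∀ s : Fin 1 → ℕ, (ix s (w i)).sum = q.sum + s 0) → ∀ B : ℝ, ∃ s : Fin 1 → ℕ, 2 ≤ s 0 ∧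
      Lft G w B s) : ∀ x ∈ Submodule.span ℚ (G.Z '' T), G.per x = 0 → x = 0 := by
  classical
  intro x hx hx0
  rw [Finsupp.mem_span_image_iff_linearCombination] at hx
  obtain ⟨l, hl, rfl⟩ := hx
  rw [Finsupp.mem_supported] at hl
  -- integer coefficients
  obtain ⟨Δ, hΔ, z, hz⟩ := Pool.Agent.X90.DA.common_den fun q : l.support => l q.1
  have hch : CharZero G.H := algebraRat.charZero G.H
  have e1 : (Δ : G.H) * Finsupp.linearCombination ℚ G.Z l = ∑ q : l.support, (z q : G.H) * G.Z q.1 := by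
    rw [Finsupp.linearCombination_apply, Finsupp.sum, ← sum_coe_sort, mul_sum]
    refine sum_congr rfl fun q _ => ?_
    have h1 := congrArg (algebraMap ℚ G.H) (hz q)
    rw [map_mul, map_natCast, map_intCast] at h1
    rw [← h1, Algebra.smul_def]
    ring
  have hT : ∀ q : l.support, q.1 ∈ T := fun q => hl (Finset.mem_coe.2 q.2)
  have hA : ∀ q : l.support, q.1 = [] ∨ Ad q.1 := fun q => hQ _ (hTQ (hT q))
  have e2 : ∑ q : l.support, (z q : ℝ) * mz q.1 = 0 := by
    have h1 := congrArg G.per e1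
    rw [map_mul, hx0, mul_zero, map_sum] at h1
    have h2 : ((∑ q : l.support, (z q : ℝ) * mz q.1 : ℝ) : ℂ) = 0 := by
      rw [h1]
      push_cast
      refine sum_congr rfl fun q _ => ?_
      rw [map_mul, map_intCast, G.per_Z' _ (hA q)]
    exact_mod_cast h2
  -- the patterns
  set lt : Lr 1 := (0, fun _ => 1) with hlt
  have hlt2 : lt.2 ≠ 0 := fun h => absurd (congrFun h 0) one_ne_zero
  set J : Type := Σ q : l.support, Fin (psti (fp q.1) [lt]).length with hJ
  let e : J ≃ Fin (Fintype.card J) := Fintype.equivFin J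
  let pt : J → List (Lr 1) := fun j => (psti (fp j.1.1) [lt]).get j.2
  have hpt : ∀ j : J, pt j ∈ psti (fp j.1.1) [lt] := fun j => List.get_mem _ _
  obtain ⟨B, hB⟩ : ∃ B : ℝ, ∀ q, |(z q : ℝ)| ≤ B :=
    ⟨∑ q, |(z q : ℝ)|, fun q => single_le_sum (f := fun q => |(z q : ℝ)|) (fun _ _ => abs_nonneg _)
      (mem_univ q)⟩
  obtain ⟨s, hs, hL⟩ := h (Fintype.card J) (fun i => pt (e.symm i)) (fun i => by
    obtain ⟨h1, h2, h3, h4, h5⟩ := psti_one lt hlt2 _ _ (hpt (e.symm i))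
    have hq := hA (e.symm i).1
    refine ⟨⟨fun u hu => ?_, fun u hu => ?_⟩, hcl _ (hTQ (hT (e.symm i).1)) _ h1, h2,
      (e.symm i).1.1, hT _, fun s => ?_⟩
    · rcases h5 u hu with h | h
      · exact Or.inl h
      · right
        rcases hq with hq | hq
        · rw [hq] at h
          simp at h
        · cases hq' : (e.symm i).1.1 with
          | nil => rw [hq'] at h; simp at h
          | cons a t =>
            rw [hq'] at h hq
            simp only [List.head?_cons, Option.mem_some_iff] at h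
            rw [← h]
            exact hq.1
    · rcases h4 u hu with h | h
      · exact Or.inl h
      · right
        rcases hq with hq | hq
        · rw [hq] at h
          simp at h
        · exact hq.pos _ h
    · rw [h3 s]
      simp [hlt]) B
  have hAs : Ad [s 0] := ⟨hs, by simp⟩
  have hsum : ∀ (M : Mot), ∑ i : Fin (Fintype.card J), (z (e.symm i).1 : M.H) * M.Z (ix s (pt (e.symm i))) =
      (∑ q : l.support, (z q : M.H) * M.Z q.1) * M.Z [s 0] := by
    intro M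
    rw [e.symm.sum_comp (fun j : J => (z j.1 : M.H) * M.Z (ix s (pt j))), Fintype.sum_sigma, sum_mul]
    refine sum_congr rfl fun q _ => ?_
    have h1 : M.Z q.1 * M.Z [s 0] = ((sti q.1 [s 0]).map M.Z).sum :=
      M.mul' _ _ (hA q) (Or.inr hAs)
    have h2 : sti q.1 [s 0] = (psti (fp q.1) [lt]).map (ix s) := by
      rw [← Pool.Agent.X90.DC.ix_psti, Pool.Agent.X90.DC.ix_fp]
      congr 1
      simp [ix, hlt]
    rw [mul_assoc, h1, h2, List.map_map, Pool.Agent.X90.DC.sum_list, mul_sum]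
    rfl
  have h3 := hL (fun i => z (e.symm i).1) (fun i => hB _) (by
    have h4 := hsum RM
    rw [h4, e2, zero_mul])
  rw [hsum G, ← e1] at h3
  rcases mul_eq_zero.1 h3 with h4 | h4
  · exact (mul_eq_zero.1 h4).resolve_left (Nat.cast_ne_zero.2 hΔ)
  · have h5 := congrArg G.per h4
    rw [map_zero, G.per_Z' _ (Or.inr hAs)] at h5
    have h6 := Pool.Agent.X90.DD.mz_pos hs
    exact absurd (Complex.ofReal_eq_zero.1 h5) h6.ne'

end Pool.Agent.N758.MT
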