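import Pool.Agent.N758.MT.A

/-!
# Polynomial relations in a domain with a period map: lifting
-/

set_option autoImplicit false

namespace Pool.Agent.N758.MT

open Finset
open Pool.Agent.Y760.ZG (mz)
open Pool.Agent.Y760.ZF (sti)
open Pool.Agent.X90.DB (Ad ix ex ex_nil ex_ne)
open Pool.Agent.X90.DC (Lr psti fp fpx Ge Gd)
open Pool.Agent.X90.DK (Mot)

/-- polynomial relations of bounded degree and height lift -/
def LftP (G : Mot) {k r : ℕ} (w : Fin r → List (Lr k)) (D : ℕ) (B : ℝ) (s : Fin k → ℕ) : Prop :=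
  ∀ P : MvPolynomial (Fin r) ℤ, P.totalDegree ≤ D → (∀ m, |((P.coeff m : ℤ) : ℝ)| ≤ B) →
    MvPolynomial.aeval (fun i => mz (ix s (w i))) P = 0 →
    MvPolynomial.aeval (fun i => G.Z (ix s (w i))) P = 0

lemma LftP.mono {G : Mot} {k r : ℕ} {w : Fin r → List (Lr k)} {D : ℕ} {B B' : ℝ} {s : Fin k → ℕ}
    (h : B ≤ B') (h' : LftP G w D B' s) : LftP G w D B s :=
  fun P hD hP => h' P hD fun m => (hP m).trans h

lemma aeval_C {r : ℕ} (f : Fin r → ℝ) (P : MvPolynomial (Fin r) ℤ) :
    MvPolynomial.aeval (fun i => ((f i : ℝ) : ℂ)) P = ((MvPolynomial.aeval f P : ℝ) : ℂ) :=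
  (MvPolynomial.comp_aeval_apply (f := f) Complex.ofRealHom.toIntAlgHom P).symm

lemma aeval_mem {H σ : Type} [CommRing H] [Algebra ℚ H] (f : σ → H) (S : Subalgebra ℚ H)
    (hf : ∀ i, f i ∈ S) (R : MvPolynomial σ ℤ) : MvPolynomial.aeval f R ∈ S := by
  induction R using MvPolynomial.induction_on with
  | C a =>
    rw [MvPolynomial.aeval_C]
    have : algebraMap ℤ H a = algebraMap ℚ H (a : ℚ) := by simp
    rw [this]
    exact Subalgebra.algebraMap_mem _ _
  | add p q hp hq =>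
    rw [map_add]
    exact Subalgebra.add_mem _ hp hq
  | mul_X p i hp =>
    rw [map_mul, MvPolynomial.aeval_X]
    exact Subalgebra.mul_mem _ hp (hf i)

/-- **lifting of polynomial relations** -/
theorem liftP {k r : ℕ} (G : Mot) (Q : Set (List ℕ)) (hcl : ∀ q ∈ Q, ∀ q', q' <+: q → q' ∈ Q)
    (w : Fin r → List (Lr k)) (hw : ∀ i, Ge (w i) ∧ fpx (w i) ∈ Q) (D : ℕ)
    (hinj : ∀ x ∈ Algebra.adjoin ℚ (G.Z '' Q), G.per x = 0 → x = 0) : AA k (LftP G w D) := by
  classical
  intro κ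
  obtain ⟨K, hK⟩ := Pool.Agent.X90.DC.gen2 0 k r D w (fun i => (hw i).1) Q
    (fun i q hq _ => hcl _ (hw i).2 q hq) κ
  refine ⟨K, fun C => ?_⟩
  obtain ⟨N0, hN0⟩ := hK C Fin.elim0
  refine ⟨N0, fun N hN => ?_⟩
  rw [Set.ncard_eq_toFinset_card _ (box_finite _ _ _)]
  refine hN0 N hN _ fun s hs => ?_
  rw [Set.Finite.mem_toFinset] at hs
  obtain ⟨hs1, hs2⟩ := hs
  refine ⟨hs1, ?_⟩
  rw [LftP] at hs2
  push Not at hs2
  obtain ⟨P, hPD, hPC, hP0, hPne⟩ := hs2
  refine ⟨MvPolynomial.rename Sum.inr P, (MvPolynomial.totalDegree_rename_le _ _).trans hPD,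
    fun m => ?_, ?_, fun h => hPne ?_⟩
  · by_cases hm : ∃ m', Finsupp.mapDomain (Sum.inr : Fin r → Fin 0 ⊕ Fin r) m' = m
    · obtain ⟨m', rfl⟩ := hm
      rw [MvPolynomial.coeff_rename_mapDomain _ Sum.inr_injective]
      exact hPC m'
    · push Not at hm
      rw [MvPolynomial.coeff_rename_eq_zero _ _ _ fun u hu => absurd hu (hm u)]
      rw [Int.cast_zero, abs_zero]
      exact (abs_nonneg _).trans (hPC 0)
  · rw [MvPolynomial.aeval_rename]
    have h1 := aeval_C (fun i => mz (ix s (w i))) P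
    rw [hP0, Complex.ofReal_zero] at h1
    exact h1
  · have h2 := h G.H Fin.elim0 G.Z (fun R hR => ?_) G.mul
    · rw [MvPolynomial.aeval_rename] at h2
      rw [← h2]
      congr 2
      funext i
      exact (ex_eq G.nil _).symm
    · refine hinj _ ?_ ?_
      · refine aeval_mem _ _ (fun i => ?_) R
        rcases i with i | i
        · exact i.elim0
        · exact Algebra.subset_adjoin ⟨i.1, i.2.2, rfl⟩
      · have h3 : G.per (MvPolynomial.aeval (Sum.elim Fin.elim0 fun p : {p : List ℕ // Ad p ∧ p ∈ Q} => G.Z p.1) R) =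
            MvPolynomial.aeval (fun i => G.per ((Sum.elim Fin.elim0 fun p : {p : List ℕ // Ad p ∧ p ∈ Q} => G.Z p.1) i)) R :=
          MvPolynomial.comp_aeval_apply (f := Sum.elim Fin.elim0 fun p : {p : List ℕ // Ad p ∧ p ∈ Q} => G.Z p.1)
            G.per.toIntAlgHom R
        rw [h3, ← hR]
        congr 2
        funext i
        rcases i with i | i
        · exact i.elim0
        · exact G.per_Z _ i.2.1

/-- **the converse**: one good argument is enough -/
theorem inj_of_liftP (G : Mot) (Q : Set (List ℕ)) (h0 : ([] : List ℕ) ∈ Q) (hQ : ∀ q ∈ Q, q = [] ∨ Ad q)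
    (hcl : ∀ q ∈ Q, ∀ q', q' <+: q → q' ∈ Q)
    (h : ∀ (r : ℕ) (w : Fin r → List (Lr 1)), (∀ i, Ge (w i) ∧ fpx (w i) ∈ Q ∧ ∃ u ∈ w i, u.2 ≠ 0) →
      ∀ (D : ℕ) (B : ℝ), ∃ s : Fin 1 → ℕ, 2 ≤ s 0 ∧ LftP G w D B s) :
    ∀ x ∈ Algebra.adjoin ℚ (G.Z '' Q), G.per x = 0 → x = 0 := by
  classical
  intro x hx hx0
  rw [Set.image_eq_range, Algebra.adjoin_range_eq_range_aeval, AlgHom.mem_range] at hx
  obtain ⟨P, rfl⟩ := hx
  -- integer coefficients
  obtain ⟨Δ, hΔ, z, hz⟩ := Pool.Agent.X90.DA.common_den fun m : P.support => P.coeff m.1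
  have hch : CharZero G.H := algebraRat.charZero G.H
  have hpr : ∀ (A : Type) [CommRing A] (f : Q → A) (m : P.support),
      (m.1.prod fun i e => f i ^ e) = ∏ q : P.vars, f q.1 ^ m.1 q.1 := by
    intro A _ f m
    rw [Finsupp.prod_of_support_subset m.1 (s := P.vars) ?_ _ (fun i _ => pow_zero _), ← prod_coe_sort]
    intro i hi
    exact (MvPolynomial.mem_vars_iff_mem_support i).2 ⟨m.1, m.2, hi⟩
  have e1 : (Δ : G.H) * MvPolynomial.aeval (fun q : Q => G.Z q.1) P =
      ∑ m : P.support, (z m : G.H) * ∏ q : P.vars, G.Z q.1.1 ^ m.1 q.1 := by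
    rw [MvPolynomial.aeval_def, MvPolynomial.eval₂_eq, ← sum_coe_sort, mul_sum]
    refine sum_congr rfl fun m _ => ?_
    have h1 := congrArg (algebraMap ℚ G.H) (hz m)
    rw [map_mul, map_natCast, map_intCast] at h1
    rw [← mul_assoc, h1]
    congr 1
    exact hpr G.H (fun q => G.Z q.1) m
  have e2 : ∑ m : P.support, (z m : ℝ) * ∏ q : P.vars, mz q.1.1 ^ m.1 q.1 = 0 := by
    have h1 := congrArg G.per e1
    rw [map_mul, hx0, mul_zero, map_sum] at h1
    have h2 : ((∑ m : P.support, (z m : ℝ) * ∏ q : P.vars, mz q.1.1 ^ m.1 q.1 : ℝ) : ℂ) = 0 := by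
      rw [h1]
      push_cast
      refine sum_congr rfl fun m _ => ?_
      rw [map_mul, map_intCast, map_prod]
      congr 1
      refine prod_congr rfl fun q _ => ?_
      rw [map_pow, G.per_Z' _ (hQ _ q.1.2)]
    exact_mod_cast h2
  -- the patterns
  set lt : Lr 1 := (0, fun _ => 1) with hlt
  have hlt2 : lt.2 ≠ 0 := fun h => absurd (congrFun h 0) one_ne_zero
  set J : Type := (Σ q : P.vars, Fin (psti (fp q.1.1) [lt]).length) ⊕ Unit with hJ
  let e : J ≃ Fin (Fintype.card J) := Fintype.equivFin J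
  let pt : J → List (Lr 1) := Sum.elim (fun j => (psti (fp j.1.1.1) [lt]).get j.2) fun _ => [lt]
  set D : ℕ := ∑ m : P.support, ∑ q : P.vars, m.1 q.1 with hD
  have hDm : ∀ m : P.support, ∑ q : P.vars, m.1 q.1 ≤ D := fun m =>
    single_le_sum (f := fun m : P.support => ∑ q : P.vars, m.1 q.1) (fun _ _ => Nat.zero_le _) (mem_univ m)
  set R : MvPolynomial (Fin (Fintype.card J)) ℤ := ∑ m : P.support, MvPolynomial.C (z m) *
    ((∏ q : P.vars, (∑ l, MvPolynomial.X (e (Sum.inl ⟨q, l⟩))) ^ m.1 q.1) *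
      MvPolynomial.X (e (Sum.inr ())) ^ (D - ∑ q : P.vars, m.1 q.1)) with hR
  obtain ⟨s, hs, hL⟩ := h (Fintype.card J) (fun i => pt (e.symm i)) (fun i => by
    generalize e.symm i = j
    rcases j with j | j
    · have hj : pt (Sum.inl j) ∈ psti (fp j.1.1.1) [lt] := List.get_mem _ _
      obtain ⟨h1, h2, h3, h4, h5⟩ := psti_one lt hlt2 _ _ hj
      have hq := hQ _ j.1.1.2
      refine ⟨⟨fun u hu => ?_, fun u hu => ?_⟩, hcl _ j.1.1.2 _ h1, h2⟩
      · rcases h5 u hu with h | h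
        · exact Or.inl h
        · right
          rcases hq with hq | hq
          · rw [hq] at h
            simp at h
          · cases hq' : j.1.1.1 with
            | nil => rw [hq'] at h; simp at h
            | cons a t =>
              rw [hq'] at h hq
              simp only [List.head?_cons, Option.mem_some_iff] at h
              rw [← h]
              exact hq.1
      · rcases h4 u hu with h | h
        · exact Or.inl h
        · right
          rcases hq with hq | hq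
          · rw [hq] at h
            simp at h
          · exact hq.pos _ h
    · refine ⟨⟨fun u hu => ?_, fun u hu => ?_⟩, ?_, lt, List.mem_singleton_self _, hlt2⟩
      · simp only [pt, Sum.elim_inr, List.head?_cons, Option.mem_some_iff] at hu
        exact Or.inl (hu ▸ hlt2)
      · simp only [pt, Sum.elim_inr, List.mem_singleton] at hu
        exact Or.inl (hu ▸ hlt2)
      · simp only [pt, Sum.elim_inr]
        rw [fpx, if_neg hlt2]
        exact h0) R.totalDegree (∑ m ∈ R.support, |((R.coeff m : ℤ) : ℝ)|)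
  have hAs : Ad [s 0] := ⟨hs, by simp⟩
  have hval : ∀ (M : Mot), MvPolynomial.aeval (fun i => M.Z (ix s (pt (e.symm i)))) R =
      (∑ m : P.support, (z m : M.H) * ∏ q : P.vars, M.Z q.1.1 ^ m.1 q.1) * M.Z [s 0] ^ D := by
    intro M
    have hq : ∀ q : P.vars, ∑ l : Fin (psti (fp q.1.1) [lt]).length, M.Z (ix s (pt (Sum.inl ⟨q, l⟩))) =
        M.Z q.1.1 * M.Z [s 0] := by
      intro q
      have h1 : M.Z q.1.1 * M.Z [s 0] = ((sti q.1.1 [s 0]).map M.Z).sum :=
        M.mul' _ _ (hQ _ q.1.2) (Or.inr hAs)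
      have h2 : sti q.1.1 [s 0] = (psti (fp q.1.1) [lt]).map (ix s) := by
        rw [← Pool.Agent.X90.DC.ix_psti, Pool.Agent.X90.DC.ix_fp]
        congr 1
        simp [ix, hlt]
      rw [h1, h2, List.map_map, Pool.Agent.X90.DC.sum_list]
      rfl
    have hu : M.Z (ix s (pt (Sum.inr ()))) = M.Z [s 0] := by
      congr 1
      simp [pt, ix, hlt]
    rw [hR, map_sum, sum_mul]
    refine sum_congr rfl fun m _ => ?_
    rw [map_mul, map_mul, map_prod, map_pow, MvPolynomial.aeval_C, MvPolynomial.aeval_X,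
      e.symm_apply_apply, hu, eq_intCast]
    simp only [map_pow, map_sum, MvPolynomial.aeval_X, Equiv.symm_apply_apply, hq, mul_pow]
    rw [prod_mul_distrib, prod_pow_eq_pow_sum]
    conv_rhs => rw [← Nat.add_sub_of_le (hDm m), pow_add]
    ring
  have h3 := hL R le_rfl (fun m => by
    by_cases hm : m ∈ R.support
    · exact single_le_sum (f := fun m => |((R.coeff m : ℤ) : ℝ)|) (fun _ _ => abs_nonneg _) hm
    · rw [MvPolynomial.notMem_support_iff.1 hm, Int.cast_zero, abs_zero]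
      exact sum_nonneg fun _ _ => abs_nonneg _) (by
    have h4 := hval RM
    rw [h4, e2, zero_mul])
  rw [hval G, ← e1] at h3
  rcases mul_eq_zero.1 h3 with h4 | h4
  · exact (mul_eq_zero.1 h4).resolve_left (Nat.cast_ne_zero.2 hΔ)
  · have h5 := congrArg G.per ((pow_eq_zero_iff (Nat.succ_ne_zero D)).1 (by
      rw [pow_succ, h4, zero_mul]))
    rw [map_zero, G.per_Z' _ (Or.inr hAs)] at h5
    have h6 := Pool.Agent.X90.DD.mz_pos hs
    exact absurd (Complex.ofReal_eq_zero.1 h5) h6.ne'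

end Pool.Agent.N758.MT
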