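import Pool.Agent.N758.MT.B

/-!
# Fronts of small weight and fronts `(2 m, ..., 2 m)`
-/

set_option autoImplicit false

namespace Pool.Agent.N758.MT

open Finset
open Pool.Agent.Y760.ZG (mz)
open Pool.Agent.Y760.ZF (sti)
open Pool.Agent.X90.DB (Ad ix ex ex_nil ex_ne)
open Pool.Agent.X90.DC (Lr psti fp fpx Ge Gd)
open Pool.Agent.X90.DK (Mot)

/-! ### Newton's identities in the stuffle algebra -/

/-- the words with one letter `x` and `m` letters `a` -/
def ins (a x : ℕ) : ℕ → List (List ℕ)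
  | 0 => [[x]]
  | m + 1 => (x :: List.replicate (m + 1) a) :: (ins a x m).map (a :: ·)

lemma sti_nil_left (v : List ℕ) : sti [] v = [v] := by rw [sti]

lemma sti_ins {A : Type} [CommRing A] (a x m : ℕ) : ∀ F : List ℕ → A,
    ((sti [x] (List.replicate (m + 1) a)).map F).sum =
      ((ins a x (m + 1)).map F).sum + ((ins a (x + a) m).map F).sum := by
  induction m with
  | zero =>
    intro F
    have e : List.replicate (0 + 1) a = [a] := rfl
    rw [e, sti, sti_nil_left, sti_nil_left]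
    have e2 : sti [x] [] = [[x]] := by rw [sti]
    rw [e2]
    simp [ins]
    ring
  | succ m ih =>
    intro F
    have e : List.replicate (m + 1 + 1) a = a :: List.replicate (m + 1) a := rfl
    have h1 := ih (F ∘ (a :: ·))
    rw [e, sti, sti_nil_left, sti_nil_left, List.map_append, List.map_append, List.sum_append,
      List.sum_append, List.map_map, List.map_map, List.map_map, h1]
    have e1 : ins a x (m + 1 + 1) = (x :: List.replicate (m + 1 + 1) a) :: (ins a x (m + 1)).map (a :: ·) := rfl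
    have e2 : ins a (x + a) (m + 1) = ((x + a) :: List.replicate (m + 1) a) :: (ins a (x + a) m).map (a :: ·) := rfl
    rw [e1, e2, e]
    simp only [List.map_cons, List.map_nil, List.sum_cons, List.sum_nil, List.map_map, add_zero,
      Function.comp]
    ring

lemma ins_self {A : Type} [CommRing A] (a m : ℕ) : ∀ F : List ℕ → A,
    ((ins a a m).map F).sum = ((m + 1 : ℕ) : A) * F (List.replicate (m + 1) a) := by
  induction m with
  | zero =>
    intro F
    simp [ins]
  | succ m ih =>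
    intro F
    have e1 : ins a a (m + 1) = (a :: List.replicate (m + 1) a) :: (ins a a m).map (a :: ·) := rfl
    have h1 := ih (F ∘ (a :: ·))
    rw [e1, List.map_cons, List.sum_cons, List.map_map, h1]
    simp only [Function.comp]
    have e : List.replicate (m + 1 + 1) a = a :: List.replicate (m + 1) a := rfl
    rw [e]
    push_cast
    ring

/-- the rational multiples of `t ^ n` -/
def Ln {H : Type} [CommRing H] [Algebra ℚ H] (t : H) (n : ℕ) : Submodule ℚ H :=
  Submodule.span ℚ {t ^ n}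

lemma Ln_mul {H : Type} [CommRing H] [Algebra ℚ H] {t x y : H} {n m : ℕ} (hx : x ∈ Ln t n)
    (hy : y ∈ Ln t m) : x * y ∈ Ln t (n + m) := by
  obtain ⟨a, rfl⟩ := Submodule.mem_span_singleton.1 hx
  obtain ⟨b, rfl⟩ := Submodule.mem_span_singleton.1 hy
  refine Submodule.mem_span_singleton.2 ⟨a * b, ?_⟩
  rw [smul_mul_smul_comm, pow_add]

/-- the elements for `(a, ..., a)` are rational multiples of powers if those for `(i a)` are -/
lemma rep_mem (G : Mot) (t : G.H) (a b : ℕ) (ha : 2 ≤ a)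
    (hP : ∀ i, 1 ≤ i → G.Z [i * a] ∈ Ln t (i * b)) :
    ∀ n, G.Z (List.replicate n a) ∈ Ln t (n * b) := by
  have hch : CharZero G.H := algebraRat.charZero G.H
  have hAd : ∀ n, List.replicate n a = [] ∨ Ad (List.replicate n a) := by
    intro n
    cases n with
    | zero => exact Or.inl rfl
    | succ n =>
      right
      refine ⟨ha, fun t ht => ?_⟩
      rw [List.eq_of_mem_replicate ht]
      omega
  have hAs : ∀ i, 1 ≤ i → Ad [i * a] := fun i hi => ⟨by nlinarith, by simp⟩
  have key : ∀ n, (∀ j ≤ n, G.Z (List.replicate j a) ∈ Ln t (j * b)) → ∀ m ≤ n, ∀ i, 1 ≤ i →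
      ((ins a (i * a) m).map G.Z).sum ∈ Ln t ((i + m) * b) := by
    intro n hn m
    induction m with
    | zero =>
      intro _ i hi
      have e : ins a (i * a) 0 = [[i * a]] := rfl
      rw [e]
      simpa using hP i hi
    | succ m ih =>
      intro hm i hi
      have h1 := G.mul' [i * a] (List.replicate (m + 1) a) (Or.inr (hAs i hi)) (hAd _)
      rw [sti_ins] at h1
      have h2 : ((ins a (i * a) (m + 1)).map G.Z).sum =
          G.Z [i * a] * G.Z (List.replicate (m + 1) a) - ((ins a ((i + 1) * a) m).map G.Z).sum := by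
        rw [h1, add_mul, one_mul]
        ring
      rw [h2]
      refine Submodule.sub_mem _ ?_ ?_
      · have h3 := Ln_mul (hP i hi) (hn (m + 1) hm)
        rwa [← add_mul] at h3
      · have h3 := ih (by omega) (i + 1) (by omega)
        have e : i + 1 + m = i + (m + 1) := by ring
        rwa [e] at h3
  have main : ∀ n, ∀ j ≤ n, G.Z (List.replicate j a) ∈ Ln t (j * b) := by
    intro n
    induction n with
    | zero =>
      intro j hj
      have : j = 0 := by omega
      subst this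
      rw [List.replicate_zero, G.nil, zero_mul]
      exact Submodule.mem_span_singleton.2 ⟨1, by simp⟩
    | succ n ih =>
      intro j hj
      rcases Nat.lt_or_ge j (n + 1) with h | h
      · exact ih j (by omega)
      have : j = n + 1 := by omega
      subst this
      have h1 := key n ih n le_rfl 1 le_rfl
      rw [one_mul, ins_self, add_comm 1 n] at h1
      have h2 : G.Z (List.replicate (n + 1) a) =
          ((n + 1 : ℕ) : ℚ)⁻¹ • (((n + 1 : ℕ) : G.H) * G.Z (List.replicate (n + 1) a)) := by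
        rw [Algebra.smul_def, ← mul_assoc, ← map_natCast (algebraMap ℚ G.H) (n + 1), ← map_mul,
          inv_mul_cancel₀ (by positivity), map_one, one_mul]
      rw [h2]
      exact Submodule.smul_mem _ _ h1
  exact fun n => main n n le_rfl

/-! ### Injectivity -/

lemma per_smul (G : Mot) (a : ℚ) (x : G.H) : G.per (a • x) = (a : ℂ) * G.per x := by
  rw [Algebra.smul_def, map_mul, ← RingHom.comp_apply, eq_ratCast]

/-- multiples of one element -/
lemma inj_single (G : Mot) (t : G.H) (ht : G.per t ≠ 0) (S : Set G.H)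
    (hS : S ⊆ (Submodule.span ℚ {t} : Submodule ℚ G.H)) : ∀ x ∈ Submodule.span ℚ S, G.per x = 0 → x = 0 := by
  intro x hx h0
  have h1 := Submodule.span_le.2 hS hx
  obtain ⟨a, rfl⟩ := Submodule.mem_span_singleton.1 h1
  rw [per_smul] at h0
  have h2 := (mul_eq_zero.1 h0).resolve_right ht
  rw [Rat.cast_eq_zero] at h2
  rw [h2, zero_smul]

lemma mz_two_tr : Transcendental ℚ (mz [2]) := by
  rw [Pool.Agent.X90.DD.mz_zr, Pool.Agent.LZ.Z2_value]
  intro h
  apply Pool.Agent.H340R2.LW.transcendental_pi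
  have h1 : Real.pi ^ 2 = (Real.pi ^ 2 / 6) * algebraMap ℚ ℝ 6 := by
    simp
  have h2 : IsAlgebraic ℚ (Real.pi ^ 2) := by
    rw [h1]
    exact h.mul (isAlgebraic_algebraMap 6)
  exact IsAlgebraic.of_pow (by norm_num) h2

lemma ad_rep {a : ℕ} (ha : 2 ≤ a) (n : ℕ) : List.replicate n a = [] ∨ Ad (List.replicate n a) := by
  cases n with
  | zero => exact Or.inl rfl
  | succ n =>
    right
    refine ⟨ha, fun t ht => ?_⟩
    rw [List.eq_of_mem_replicate ht]
    omega

/-- **the algebra generated by one element** -/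
lemma inj_adjoin (G : Mot) (S : Set G.H) (hS : S ⊆ (Algebra.adjoin ℚ {G.Z [2]} : Subalgebra ℚ G.H)) :
    ∀ x ∈ Algebra.adjoin ℚ S, G.per x = 0 → x = 0 := by
  intro x hx h0
  have h1 := Algebra.adjoin_le hS hx
  rw [Algebra.adjoin_singleton_eq_range_aeval, AlgHom.mem_range] at h1
  obtain ⟨P, rfl⟩ := h1
  have h2 : G.per (Polynomial.aeval (G.Z [2]) P) = Polynomial.aeval (G.per (G.Z [2])) P :=
    (Polynomial.aeval_algHom_apply G.per.toRatAlgHom (G.Z [2]) P).symm
  rw [h0, G.per_Z' [2] (Or.inr ⟨le_rfl, by simp⟩)] at h2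
  have h3 : Polynomial.aeval ((mz [2] : ℝ) : ℂ) P = ((Polynomial.aeval (mz [2]) P : ℝ) : ℂ) :=
    Polynomial.aeval_algebraMap_apply ℂ (mz [2]) P
  rw [h3] at h2
  have h4 : Polynomial.aeval (mz [2]) P = 0 := by exact_mod_cast h2.symm
  have h5 := (transcendental_iff.1 mz_two_tr) P h4
  rw [h5, map_zero]

/-- the indices `(2 m, ..., 2 m)` -/
def Ev : Set (List ℕ) := {q | ∃ n m : ℕ, 1 ≤ m ∧ q = List.replicate n (2 * m)}

lemma ev_closed : ∀ q ∈ Ev, ∀ q', q' <+: q → q' ∈ Ev := by
  rintro q ⟨n, m, hm, rfl⟩ q' hq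
  refine ⟨q'.length, m, hm, ?_⟩
  rw [List.eq_replicate_iff]
  exact ⟨rfl, fun b hb => List.eq_of_mem_replicate (hq.subset hb)⟩

lemma ev_ad : ∀ q ∈ Ev, q = [] ∨ Ad q := by
  rintro q ⟨n, m, hm, rfl⟩
  exact ad_rep (by omega) n

/-- Euler's relations -/
def Eu (G : Mot) : Prop := ∀ m : ℕ, 1 ≤ m → ∃ a : ℚ, G.Z [2 * m] = a • G.Z [2] ^ m

lemma ev_mem (G : Mot) (hE : Eu G) : ∀ q ∈ Ev, ∃ n, q.sum = 2 * n ∧ G.Z q ∈ Ln (G.Z [2]) n := by
  rintro q ⟨n, m, hm, rfl⟩
  refine ⟨n * m, ?_, ?_⟩
  · rw [List.sum_replicate, smul_eq_mul]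
    ring
  · refine rep_mem G (G.Z [2]) (2 * m) m (by omega) (fun i hi => ?_) n
    obtain ⟨a, ha⟩ := hE (i * m) (Nat.mul_pos hi hm)
    have e : i * (2 * m) = 2 * (i * m) := by ring
    rw [e, ha]
    exact Submodule.mem_span_singleton.2 ⟨a, rfl⟩

theorem inj_ev (G : Mot) (hE : Eu G) : ∀ x ∈ Algebra.adjoin ℚ (G.Z '' Ev), G.per x = 0 → x = 0 := by
  refine inj_adjoin G _ ?_
  intro y hy
  obtain ⟨q, hq, hqy⟩ := hy
  obtain ⟨n, -, h⟩ := ev_mem G hE q hq
  obtain ⟨a, ha⟩ := Submodule.mem_span_singleton.1 h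
  have h1 : G.Z [2] ∈ Algebra.adjoin ℚ {G.Z [2]} := Algebra.self_mem_adjoin_singleton ℚ _
  have h2 : a • G.Z [2] ^ n ∈ Algebra.adjoin ℚ {G.Z [2]} :=
    Subalgebra.smul_mem _ (Subalgebra.pow_mem _ h1 n) a
  rw [ha, hqy] at h2
  exact h2

/-- the relations of weight at most four -/
def Sm (G : Mot) : Prop := G.Z [2, 1] = G.Z [3] ∧ 4 * G.Z [3, 1] = G.Z [4] ∧
  4 * G.Z [2, 2] = 3 * G.Z [4] ∧ G.Z [2, 1, 1] = G.Z [4]

/-- the indices of weight at most `W` -/
def Wt (W : ℕ) : Set (List ℕ) := {q | (q = [] ∨ Ad q) ∧ q.sum ≤ W}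

lemma prefix_sum {p q : List ℕ} (h : p <+: q) : p.sum ≤ q.sum := by
  obtain ⟨t, rfl⟩ := h
  rw [List.sum_append]
  exact Nat.le_add_right _ _

lemma wt_closed (W : ℕ) : ∀ q ∈ Wt W, ∀ q', q' <+: q → q' ∈ Wt W :=
  fun _ hq _ hq' => ⟨ad_prefix hq.1 hq', (prefix_sum hq').trans hq.2⟩

theorem inj_hom (G : Mot) (hE : Eu G) (hS : Sm G) : ∀ n, ∀ x ∈ Submodule.span ℚ
    (G.Z '' {q ∈ Wt 4 ∪ Ev | q.sum = n}), G.per x = 0 → x = 0 := by
  obtain ⟨s1, s2, s3, s4⟩ := hS
  have p2 : G.per (G.Z [2]) ≠ 0 := by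
    rw [G.per_Z' [2] (Or.inr ⟨le_rfl, by simp⟩)]
    exact Complex.ofReal_ne_zero.2 (Pool.Agent.X90.DD.mz_pos le_rfl).ne'
  have p3 : G.per (G.Z [3]) ≠ 0 := by
    rw [G.per_Z' [3] (Or.inr ⟨by norm_num, by simp⟩)]
    exact Complex.ofReal_ne_zero.2 (Pool.Agent.X90.DD.mz_pos (by norm_num)).ne'
  intro n
  by_cases hn : n = 3
  · subst hn
    refine inj_single G (G.Z [3]) p3 _ ?_
    rintro _ ⟨q, ⟨hq | hq, h3⟩, rfl⟩
    · rcases hq.1 with rfl | hA
      · simp at h3
      · rcases Pool.Agent.X90.DD.ad_three hA h3 with rfl | rfl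
        · exact Submodule.mem_span_singleton_self _
        · rw [s1]
          exact Submodule.mem_span_singleton_self _
    · obtain ⟨m, hm, -⟩ := ev_mem G hE q hq
      omega
  · refine inj_single G (G.Z [2] ^ (n / 2)) (by rw [map_pow]; exact pow_ne_zero _ p2) _ ?_
    rintro _ ⟨q, ⟨hq | hq, rfl⟩, rfl⟩
    · rcases hq.1 with rfl | hA
      · rw [G.nil]
        exact Submodule.mem_span_singleton.2 ⟨1, by simp⟩
      · have h2 := Pool.Agent.X90.DD.two_le_sum hA
        have h4 := hq.2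
        have h5 : q.sum = 2 ∨ q.sum = 4 := by omega
        rcases h5 with h5 | h5
        · rw [h5, Pool.Agent.X90.DD.ad_two hA h5]
          exact Submodule.mem_span_singleton.2 ⟨1, by simp⟩
        · rw [h5]
          obtain ⟨a, ha⟩ := hE 2 (by norm_num)
          have h6 : G.Z [4] ∈ Submodule.span ℚ {G.Z [2] ^ (4 / 2)} :=
            Submodule.mem_span_singleton.2 ⟨a, ha.symm⟩
          have e31 : G.Z [3, 1] = (4 : ℚ)⁻¹ • G.Z [4] := by
            rw [← s2, Algebra.smul_def, ← mul_assoc]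
            have : algebraMap ℚ G.H (4 : ℚ)⁻¹ * 4 = 1 := by
              rw [← map_ofNat (algebraMap ℚ G.H) 4, ← map_mul]
              norm_num
            rw [this, one_mul]
          have e22 : G.Z [2, 2] = (3 * (4 : ℚ)⁻¹) • G.Z [4] := by
            have h7 : G.Z [2, 2] = (4 : ℚ)⁻¹ • (4 * G.Z [2, 2]) := by
              rw [Algebra.smul_def, ← mul_assoc]
              have : algebraMap ℚ G.H (4 : ℚ)⁻¹ * 4 = 1 := by
                rw [← map_ofNat (algebraMap ℚ G.H) 4, ← map_mul]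
                norm_num
              rw [this, one_mul]
            rw [h7, s3, Algebra.smul_def, Algebra.smul_def, map_mul, map_ofNat]
            ring
          rcases Pool.Agent.X90.DD.ad_four hA h5 with rfl | rfl | rfl | rfl
          · exact h6
          · rw [e31]
            exact Submodule.smul_mem _ _ h6
          · rw [e22]
            exact Submodule.smul_mem _ _ h6
          · rw [s4]
            exact h6
    · obtain ⟨m, hm, h⟩ := ev_mem G hE q hq
      rw [hm, Nat.mul_div_cancel_left m (by norm_num)]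
      exact h

theorem inj_three (G : Mot) (h21 : G.Z [2, 1] = G.Z [3]) :
    ∀ x ∈ Submodule.span ℚ (G.Z '' Wt 3), G.per x = 0 → x = 0 := by
  intro x hx h0
  have h1 : Submodule.span ℚ (G.Z '' Wt 3) ≤ Submodule.span ℚ {G.Z [], G.Z [2], G.Z [3]} := by
    rw [Submodule.span_le]
    rintro _ ⟨p, ⟨hp1, hp2⟩, rfl⟩
    rcases hp1 with rfl | hA
    · exact Submodule.subset_span (by simp)
    · have h2 := Pool.Agent.X90.DD.two_le_sum hA
      have h3 : p.sum = 2 ∨ p.sum = 3 := by omega
      rcases h3 with h3 | h3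
      · rw [Pool.Agent.X90.DD.ad_two hA h3]
        exact Submodule.subset_span (by simp)
      · rcases Pool.Agent.X90.DD.ad_three hA h3 with rfl | rfl
        · exact Submodule.subset_span (by simp)
        · rw [h21]
          exact Submodule.subset_span (by simp)
  have h2 := h1 hx
  rw [Submodule.mem_span_triple] at h2
  obtain ⟨a, b, c, rfl⟩ := h2
  have h3 : ((a : ℝ) * 1 + b * mz [2] + c * mz [3] : ℝ) = 0 := by
    have h4 : G.per (a • G.Z [] + b • G.Z [2] + c • G.Z [3]) =
        (((a : ℝ) * 1 + b * mz [2] + c * mz [3] : ℝ) : ℂ) := by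
      rw [map_add, map_add, per_smul, per_smul, per_smul, G.nil, map_one,
        G.per_Z' [2] (Or.inr ⟨le_rfl, by simp⟩), G.per_Z' [3] (Or.inr ⟨by norm_num, by simp⟩)]
      push_cast
      ring
    rw [h4] at h0
    exact_mod_cast h0
  rw [Pool.Agent.X90.DD.mz_zr, Pool.Agent.X90.DD.mz_zr] at h3
  have hli := Pool.Agent.LZ.Z3_linind
  rw [Fintype.linearIndependent_iff] at hli
  have h5 := hli ![a, b, c] (by
    have e : ∑ i, (![a, b, c] : Fin 3 → ℚ) i • (![(1 : ℝ), Pool.Agent.H337R2.zr 2,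
        Pool.Agent.H337R2.zr 3] : Fin 3 → ℝ) i = (a : ℝ) * 1 + b * Pool.Agent.H337R2.zr 2 +
        c * Pool.Agent.H337R2.zr 3 := by
      rw [Fin.sum_univ_three]
      simp only [Rat.smul_def]
      rfl
    exact e.trans h3)
  have g0 : a = 0 := by simpa using h5 0
  have g1 : b = 0 := by simpa using h5 1
  have g2 : c = 0 := by simpa using h5 2
  rw [g0, g1, g2]
  simp

end Pool.Agent.N758.MT
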